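import Pool.Agent.Helper45.CF.GoalsC

/-!
# Project CF stage 2 (MP_d97caa_an): packet CF2-STC
-/

set_option autoImplicit false

open scoped ComplexOrder ZeroAtInfty Topology ComplexConjugate NNReal
open TopologicalSpace Filter

namespace Pool.Agent.Helper77.CF2.STC

open Pool.Agent.Helper34.CAR Pool.Agent.Helper39.CR Pool.Agent.Helper39.Uct
  Pool.Agent.Helper39.CarDefs Pool.Agent.Helper45.CF

noncomputable section

/-- a matrix valued function with continuous entries is continuous -/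
theorem cont_of_entries {X C B : Type} [TopologicalSpace X] [Fintype C] [DecidableEq C]
    [CStarAlgebra B] (g : X → Mt C B) (h : ∀ p q, Continuous fun x => g x p q) :
    Continuous g := by
  rw [continuous_iff_continuousAt]
  intro a
  rw [ContinuousAt, tendsto_iff_norm_sub_tendsto_zero]
  refine squeeze_zero (fun b => norm_nonneg _) (fun b => Mt.norm_le_sum (g b - g a)) ?_
  have h0 : (0 : ℝ) = ∑ i : C, ∑ j : C, ‖g a i j - g a i j‖ := by simp
  rw [h0]
  refine tendsto_finsetSum _ fun i _ => tendsto_finsetSum _ fun j _ => ?_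
  have hc : Continuous fun b : X => ‖g b i j - g a i j‖ := ((h i j).sub continuous_const).norm
  exact hc.tendsto a

theorem cont_entry {X C B : Type} [TopologicalSpace X] [Fintype C] [DecidableEq C]
    [CStarAlgebra B] (g : X → Mt C B) (h : Continuous g) (p q : C) :
    Continuous fun x => g x p q := by
  rw [continuous_iff_continuousAt]
  intro a
  rw [ContinuousAt, tendsto_iff_norm_sub_tendsto_zero]
  have h1 := h.tendsto a
  rw [tendsto_iff_norm_sub_tendsto_zero] at h1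
  refine squeeze_zero (fun b => norm_nonneg _) (fun b => ?_) h1
  exact Mt.norm_entry_le (g b - g a) p q

theorem starAlgHom_cont {A D : Type} [CStarAlgebra A] [CStarAlgebra D] (ρ : A →⋆ₐ[ℂ] D) :
    Continuous ρ :=
  AddMonoidHomClass.continuous_of_bound ρ 1 fun a => by
    rw [one_mul]
    exact NonUnitalStarAlgHom.norm_apply_le ρ a

section

variable {B B' C : Type} [CStarAlgebra B] [CStarAlgebra B'] [Fintype C] [DecidableEq C]

/-- first component -/
def fM : Mt C (Cb B B') →⋆ₐ[ℂ] Mt C B := Mt.map (StarAlgHom.fst ℂ B C(ℕ → Sphere2, B'))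

/-- evaluation -/
def evS (x : ℕ → Sphere2) : C(ℕ → Sphere2, B') →⋆ₐ[ℂ] B' where
  toFun f := f x
  map_one' := rfl
  map_mul' _ _ := rfl
  map_zero' := rfl
  map_add' _ _ := rfl
  commutes' _ := rfl
  map_star' _ := rfl

/-- evaluation of the second component -/
def eM (x : ℕ → Sphere2) : Mt C (Cb B B') →⋆ₐ[ℂ] Mt C B' :=
  Mt.map ((evS x).comp (StarAlgHom.snd ℂ B C(ℕ → Sphere2, B')))

theorem fM_apply (M : Mt C (Cb B B')) (p q : C) : fM M p q = (M p q).1 := rfl

theorem eM_apply (x : ℕ → Sphere2) (M : Mt C (Cb B B')) (p q : C) :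
    eM x M p q = (M p q).2 x := rfl

theorem inj (M M' : Mt C (Cb B B')) (h1 : fM M = fM M') (h2 : ∀ x, eM x M = eM x M') :
    M = M' := by
  refine Mt.ext fun p q => Prod.ext ?_ ?_
  · have := congrArg (fun a : Mt C B => a p q) h1
    exact this
  · ext x
    have := congrArg (fun a : Mt C B' => a p q) (h2 x)
    exact this

theorem eM_cont (M : Mt C (Cb B B')) : Continuous fun x => eM x M :=
  cont_of_entries _ fun p q => (M p q).2.continuous

/-- the isometric *-homomorphism -/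
def Ph : Mt C (Cb B B') →⋆ₐ[ℂ] Mt C B × C(ℕ → Sphere2, Mt C B') where
  toFun M := (fM M, ⟨fun x => eM x M, eM_cont M⟩)
  map_one' := by
    refine Prod.ext (map_one (fM : Mt C (Cb B B') →⋆ₐ[ℂ] Mt C B)) ?_
    ext1 x
    exact map_one (eM x : Mt C (Cb B B') →⋆ₐ[ℂ] Mt C B')
  map_mul' a b := by
    refine Prod.ext (map_mul fM a b) ?_
    ext1 x
    exact map_mul (eM x) a b
  map_zero' := by
    refine Prod.ext (map_zero (fM : Mt C (Cb B B') →⋆ₐ[ℂ] Mt C B)) ?_
    ext1 x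
    exact map_zero (eM x : Mt C (Cb B B') →⋆ₐ[ℂ] Mt C B')
  map_add' a b := by
    refine Prod.ext (map_add fM a b) ?_
    ext1 x
    exact map_add (eM x) a b
  commutes' c := by
    refine Prod.ext (AlgHomClass.commutes
      (fM : Mt C (Cb B B') →⋆ₐ[ℂ] Mt C B) c) ?_
    ext1 x
    exact AlgHomClass.commutes (eM x : Mt C (Cb B B') →⋆ₐ[ℂ] Mt C B') c
  map_star' a := by
    refine Prod.ext (map_star fM a) ?_
    ext1 x
    exact map_star (eM x) a

theorem nrm (M : Mt C (Cb B B')) (δ : ℝ) (hδ : 0 ≤ δ) (h1 : ‖fM M‖ ≤ δ)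
    (h2 : ∀ x, ‖eM x M‖ ≤ δ) : ‖M‖ ≤ δ := by
  have hinj : Function.Injective (Ph : Mt C (Cb B B') →⋆ₐ[ℂ] _) := by
    intro a b hab
    refine inj a b (congrArg Prod.fst hab) fun x => ?_
    have := congrArg Prod.snd hab
    exact DFunLike.congr_fun this x
  rw [← NonUnitalStarAlgHom.norm_map (Ph : Mt C (Cb B B') →⋆ₐ[ℂ] _) hinj M]
  refine max_le h1 ?_
  exact (ContinuousMap.norm_le _ hδ).2 h2

theorem norm_one_le' {A : Type} [CStarAlgebra A] : ‖(1 : A)‖ ≤ 1 := by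
  have h := CStarRing.norm_star_mul_self (x := (1 : A))
  rw [star_one, one_mul] at h
  by_contra hc
  rw [not_le] at hc
  nlinarith [norm_nonneg (1 : A)]

theorem norm_le_one {A : Type} [CStarAlgebra A] (w : A) (h : star w * w = 1) : ‖w‖ ≤ 1 := by
  have h1 := CStarRing.norm_star_mul_self (x := w)
  rw [h] at h1
  have h2 := norm_one_le' (A := A)
  by_contra hc
  rw [not_le] at hc
  nlinarith [norm_nonneg w]

end

theorem t : S_STC := by
  intro B B' _ _ P hstep i F ε hε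
  classical
  -- the finite net
  have hK : IsCompact (⋃ b ∈ F, Set.range (b.2 : (ℕ → Sphere2) → B')) :=
    F.isCompact_biUnion fun b _ => isCompact_range b.2.continuous
  obtain ⟨N, -, hNf, hN⟩ := hK.finite_cover_balls (show (0 : ℝ) < ε / 4 by positivity)
  obtain ⟨a, J, fJ, dJ, t, w₁, w₂, ρ, hcard, hw1, hw1', hw2, hw2', h1, h2⟩ :=
    hstep (F.image Prod.fst) hNf.toFinset (ε / 4) (by positivity)
  refine ⟨⟨J, fJ, dJ, t, ⟨a, hcard⟩⟩, ?_⟩
  show ∃ w : Mt ((Fin 2 ⊕ Unit) ⊕ J) (Cb B B'), star w * w = 1 ∧ w * star w = 1 ∧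
    ∀ K : Cb B B' →⋆ₐ[ℂ] Mt ((Fin 2 ⊕ Unit) ⊕ J) (Cb B B'), IsCb P t i K → ∀ b ∈ F,
      ∃ x : (Fin 2 ⊕ Unit) ⊕ J → (Fin 2 ⊕ Unit) ⊕ J → ℂ × C(ℕ → Sphere2, ℂ),
        ‖K b - star w * zm (zcb B B') x * w‖ < ε
  let w : Mt ((Fin 2 ⊕ Unit) ⊕ J) (Cb B B') := Mt.of fun p q =>
    (w₁ p q, ⟨fun x => w₂ (x i) p q, cont_entry (fun x : ℕ → Sphere2 => w₂ (x i))
      (w₂.continuous.comp (continuous_apply i)) p q⟩)
  have hfw : fM w = w₁ := rfl
  have hew : ∀ x, eM x w = w₂ (x i) := fun x => rfl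
  have hu1 : ∀ y, star (w₂ y) * w₂ y = 1 := fun y => DFunLike.congr_fun hw2 y
  have hu2 : ∀ y, w₂ y * star (w₂ y) = 1 := fun y => DFunLike.congr_fun hw2' y
  refine ⟨w, ?_, ?_, ?_⟩
  · refine inj _ _ ?_ fun x => ?_
    · rw [map_mul, map_star, hfw, hw1, map_one]
    · rw [map_mul, map_star, hew, hu1, map_one]
  · refine inj _ _ ?_ fun x => ?_
    · rw [map_mul, map_star, hfw, hw1', map_one]
    · rw [map_mul, map_star, hew, hu2, map_one]
  intro K hKc b hb
  obtain ⟨x₁, hx₁⟩ := h1 b.1 (Finset.mem_image_of_mem _ hb)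
  let X : (Fin 2 ⊕ Unit) ⊕ J → (Fin 2 ⊕ Unit) ⊕ J → ℂ × C(ℕ → Sphere2, ℂ) := fun p q =>
    (x₁ p q, ⟨fun x => ρ (b.2 x) p q, cont_entry (fun x : ℕ → Sphere2 => ρ (b.2 x))
      ((starAlgHom_cont ρ).comp b.2.continuous) p q⟩)
  refine ⟨X, ?_⟩
  have hfz : fM (zm (zcb B B') X) = Mt.scal x₁ := rfl
  have hez : ∀ x, eM x (zm (zcb B B') X) = scl B' ρ (b.2 x) := fun x => rfl
  have hfK : fM (K b) = kst P.θ P.ω (t.comp P.inc) b.1 :=
    Mt.ext fun p q => (hKc b.1 b.2 p q).1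
  have heK : ∀ (c : Cb B B') x, eM x (K c) = rotM P.θ' P.ω' t (x i) (c.2 x) := fun c x =>
    Mt.ext fun p q => (hKc c.1 c.2 p q).2 x
  -- the rotated steps are contractive
  have hcon : ∀ (x : ℕ → Sphere2) (m n : B'),
      ‖rotM P.θ' P.ω' t (x i) m - rotM P.θ' P.ω' t (x i) n‖ ≤ ‖m - n‖ := by
    intro x m n
    have e1 : rotM P.θ' P.ω' t (x i) m = eM x (K (0, ContinuousMap.const _ m)) :=
      (heK (0, ContinuousMap.const _ m) x).symm
    have e2 : rotM P.θ' P.ω' t (x i) n = eM x (K (0, ContinuousMap.const _ n)) :=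
      (heK (0, ContinuousMap.const _ n) x).symm
    rw [e1, e2, ← map_sub, ← map_sub]
    refine (NonUnitalStarAlgHom.norm_apply_le _ _).trans ?_
    refine (NonUnitalStarAlgHom.norm_apply_le _ _).trans ?_
    refine max_le ?_ ?_
    · show ‖(0 : B) - 0‖ ≤ ‖m - n‖
      rw [sub_zero, norm_zero]
      exact norm_nonneg _
    · exact (ContinuousMap.norm_le _ (norm_nonneg _)).2 fun y => le_refl _
  have hmain : ‖K b - star w * zm (zcb B B') X * w‖ ≤ 3 * (ε / 4) := by
    refine nrm _ _ (by positivity) ?_ fun x => ?_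
    · rw [map_sub, map_mul, map_mul, map_star, hfw, hfz, hfK]
      linarith
    · rw [map_sub, map_mul, map_mul, map_star, hew, hez, heK]
      have hbx : b.2 x ∈ ⋃ n ∈ N, Metric.ball n (ε / 4) :=
        hN (Set.mem_biUnion hb ⟨x, rfl⟩)
      rw [Set.mem_iUnion₂] at hbx
      obtain ⟨n, hn, hbn⟩ := hbx
      rw [Metric.mem_ball, dist_eq_norm] at hbn
      have k1 := hcon x (b.2 x) n
      have k2 := h2 n (hNf.mem_toFinset.2 hn) (x i)
      have k3 : ‖star (w₂ (x i)) * (scl B' ρ n - scl B' ρ (b.2 x)) * w₂ (x i)‖ ≤ ‖n - b.2 x‖ := by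
        have l1 := norm_le_one (w₂ (x i)) (hu1 (x i))
        have l2 : ‖star (w₂ (x i))‖ ≤ 1 := by rw [norm_star]; exact l1
        have l3 : ‖scl B' ρ n - scl B' ρ (b.2 x)‖ ≤ ‖n - b.2 x‖ := by
          rw [← map_sub]
          exact NonUnitalStarAlgHom.norm_apply_le _ _
        have l4 := norm_mul_le (star (w₂ (x i)) * (scl B' ρ n - scl B' ρ (b.2 x))) (w₂ (x i))
        have l5 := norm_mul_le (star (w₂ (x i))) (scl B' ρ n - scl B' ρ (b.2 x))
        have l6 : ‖star (w₂ (x i))‖ * ‖scl B' ρ n - scl B' ρ (b.2 x)‖ ≤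
            1 * ‖n - b.2 x‖ := mul_le_mul l2 l3 (norm_nonneg _) zero_le_one
        have l7 : ‖star (w₂ (x i)) * (scl B' ρ n - scl B' ρ (b.2 x))‖ * ‖w₂ (x i)‖ ≤
            ‖n - b.2 x‖ * 1 :=
          mul_le_mul (by linarith) l1 (norm_nonneg _) (norm_nonneg _)
        linarith
      have hsplit : rotM P.θ' P.ω' t (x i) (b.2 x) -
          star (w₂ (x i)) * scl B' ρ (b.2 x) * w₂ (x i) =
          (rotM P.θ' P.ω' t (x i) (b.2 x) - rotM P.θ' P.ω' t (x i) n) +
          (rotM P.θ' P.ω' t (x i) n - star (w₂ (x i)) * scl B' ρ n * w₂ (x i)) +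
          star (w₂ (x i)) * (scl B' ρ n - scl B' ρ (b.2 x)) * w₂ (x i) := by
        rw [mul_sub, sub_mul]
        abel
      rw [hsplit]
      have k4 := norm_add_le ((rotM P.θ' P.ω' t (x i) (b.2 x) - rotM P.θ' P.ω' t (x i) n) +
          (rotM P.θ' P.ω' t (x i) n - star (w₂ (x i)) * scl B' ρ n * w₂ (x i)))
          (star (w₂ (x i)) * (scl B' ρ n - scl B' ρ (b.2 x)) * w₂ (x i))
      have k5 := norm_add_le (rotM P.θ' P.ω' t (x i) (b.2 x) - rotM P.θ' P.ω' t (x i) n)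
          (rotM P.θ' P.ω' t (x i) n - star (w₂ (x i)) * scl B' ρ n * w₂ (x i))
      rw [norm_sub_rev n] at k3
      linarith
  linarith

end

end Pool.Agent.Helper77.CF2.STC
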